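import Pool.Agent.V11235.SJ.Supply
import Pool.Agent.V11235.SE.Core
import Pool.Agent.V11235.SH.Loc
import Pool.Agent.TH377.Sup.EmbR

/-! The curves with the given coefficients over all extensions of the base field. -/

set_option autoImplicit false

namespace Pool.Agent.V11235.SJ

open Polynomial WithZero NumberField IsDedekindDomain Pool.Agent.W858.SF Pool.Agent.TH377.Sup
open Pool.Agent.V11235.SH Pool.Agent.V11235.SE Pool.Agent.Y157.PS Pool.Agent.Y141.PS

/-- an irreducible polynomial over a finite field whose degree is divisible by `N` is prime to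
`X^(q^n) - X`, if `N` does not divide `n` -/
theorem coprime_irr {κ : Type} [Field κ] [Finite κ] (q N : ℕ) (hq : Nat.card κ = q) (f : κ[X])
    (hf : Irreducible f) (hN : N ∣ f.natDegree) (n : ℕ) (hn : ¬ N ∣ n) :
    IsCoprime (X ^ (q ^ n) - X) f := by
  rw [isCoprime_comm]
  refine (hf.coprime_iff_not_dvd).2 fun h => hn (hN.trans ?_)
  rw [← hq] at h
  exact hf.natDegree_dvd_of_dvd_X_pow_card_pow_sub_X h

theorem emb_all {L : Type} [Field L] [NumberField L] (v : HeightOneSpectrum (𝓞 L)) (p : ℕ)
    (hp : p.Prime) (hvp : Ideal.absNorm v.asIdeal = p)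
    {R : Type} [CommRing R] {k : Type} [Field k] [CharZero k] [Algebra R k]
    (hinj : Function.Injective (algebraMap R k))
    (P : R →+* L) (ψ : k →+* v.adicCompletion L)
    (hPint : ∀ r, v.valuation L (P r) ≤ 1)
    (hψ : ∀ r, vv v (ψ (algebraMap R k r) - algebraMap L (v.adicCompletion L) (P r)) ≤ exp (-2))
    {d : ℕ} (h3 : 3 ≤ d) (hdv : (d : 𝓞 L) ∉ v.asIdeal) (c : Fin (d + 2) → R)
    (y : Fin (d + 2) → 𝓞 L)
    (hcy : ∀ i, v.valuation L (P (c i) - algebraMap (𝓞 L) L (y i)) ≤ exp (-2))
    (hy : y 0 ∈ v.asIdeal) (hy' : y 0 ∉ v.asIdeal ^ 2) (hirr : IrrMod v d fun i => y i.succ) :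
    (∀ ℓ : ℕ, ℓ.Prime → ℓ ∣ d → ∀ (K' : Type) [Field K'] [Algebra k K'] [FiniteDimensional k K'],
      ¬ ℓ ∣ Module.finrank k K' → FineP ℓ (algebraMap k K' (algebraMap R k (c 0)))
        ((pol fun i : Fin (d + 1) => algebraMap R k (c i.succ)).map (algebraMap k K'))) ∧
    (∀ D : ℕ, D ≠ 0 → Nat.gcd 2 D * D ∣ d → ∀ (K' : Type) [Field K'] [Algebra k K']
      [FiniteDimensional k K'], ¬ (D : ℤ) ∣ (Module.finrank k K' : ℤ) →
        Data D K' (algebraMap k K' (algebraMap R k (c 0)))
          (fun _ : Unit => (pol fun i : Fin (d + 1) => algebraMap R k (c i.succ)).map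
            (algebraMap k K'))) := by
  classical
  have hFUN : S_FUN := Pool.Agent.Y674.PS.funct Pool.Agent.Y157.PS.a_inrt
  have hfinres := finite_residue v
  have hmax : v.asIdeal.IsMaximal := v.isMaximal
  let _ := Ideal.Quotient.field v.asIdeal
  obtain ⟨θ, hθ, hθr⟩ := exists_residue_map v
  have hθinj : Function.Injective θ := θ.injective
  have hγ2 : (exp (-2) : ℤᵐ⁰) < 1 := by
    rw [← exp_zero, exp_lt_exp]
    omega
  have hPv : ∀ r, vv v (algebraMap L (v.adicCompletion L) (P r)) ≤ 1 := fun r => by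
    rw [vv_algebraMap]
    exact hPint r
  have hψ1 : ∀ r, vv v (ψ (algebraMap R k r)) ≤ 1 := by
    intro r
    have h1 : ψ (algebraMap R k r) = (ψ (algebraMap R k r) -
      algebraMap L (v.adicCompletion L) (P r)) + algebraMap L (v.adicCompletion L) (P r) := by ring
    rw [h1]
    exact (Valuation.map_add _ _ _).trans (max_le ((hψ r).trans hγ2.le) (hPv r))
  have hnear : ∀ i, vv v (ψ (algebraMap R k (c i)) -
      algebraMap L (v.adicCompletion L) (algebraMap (𝓞 L) L (y i))) ≤ exp (-2) := by
    intro i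
    have h1 : ψ (algebraMap R k (c i)) -
        algebraMap L (v.adicCompletion L) (algebraMap (𝓞 L) L (y i)) =
        (ψ (algebraMap R k (c i)) - algebraMap L (v.adicCompletion L) (P (c i))) +
        algebraMap L (v.adicCompletion L) (P (c i) - algebraMap (𝓞 L) L (y i)) := by
      rw [map_sub]
      ring
    rw [h1]
    refine (Valuation.map_add _ _ _).trans (max_le (hψ _) ?_)
    rw [vv_algebraMap]
    exact hcy i
  let cB : Fin (d + 1) → (vv v).valuationSubring := fun i => ⟨ψ (algebraMap R k (c i.succ)), hψ1 _⟩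
  have hres : ∀ i, IsLocalRing.residue _ (cB i) = θ (Ideal.Quotient.mk v.asIdeal (y i.succ)) := by
    intro i
    exact hθr _ _ ((hnear i.succ).trans_lt hγ2)
  have hlast : IsUnit (cB (Fin.last d)) := by
    have h5 : cB (Fin.last d) ∉ IsLocalRing.maximalIdeal (vv v).valuationSubring := by
      intro h6
      have h7 : IsLocalRing.residue _ (cB (Fin.last d)) = 0 :=
        (IsLocalRing.residue_eq_zero_iff _).2 h6
      rw [hres, map_eq_zero_iff _ hθinj, Ideal.Quotient.eq_zero_iff_mem] at h7
      exact hirr.1 h7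
    by_contra h6
    exact h5 ((IsLocalRing.mem_maximalIdeal _).2 h6)
  have hlast0 : cB (Fin.last d) ≠ 0 := hlast.ne_zero
  have hck : algebraMap R k (c (Fin.last d).succ) ≠ 0 := by
    intro h0
    apply hlast0
    apply Subtype.ext
    change ψ (algebraMap R k (c (Fin.last d).succ)) = 0
    rw [h0, map_zero]
  have ha : vv v (ψ (algebraMap R k (c 0))) = exp (-1) := by
    have h5 : ψ (algebraMap R k (c 0)) = (ψ (algebraMap R k (c 0)) -
      algebraMap L (v.adicCompletion L) (algebraMap (𝓞 L) L (y 0))) +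
      algebraMap L (v.adicCompletion L) (algebraMap (𝓞 L) L (y 0)) := by ring
    have h7 := val_eq_of v (y 0) hy hy'
    have h6 : vv v (ψ (algebraMap R k (c 0)) - algebraMap L (v.adicCompletion L)
        (algebraMap (𝓞 L) L (y 0))) <
        vv v (algebraMap L (v.adicCompletion L) (algebraMap (𝓞 L) L (y 0))) := by
      rw [vv_algebraMap, h7]
      refine (hnear 0).trans_lt ?_
      rw [exp_lt_exp]
      omega
    rw [h5, Valuation.map_add_eq_of_lt_right _ h6, vv_algebraMap, h7]
  -- the reduction
  have hB : Irreducible ((pol cB).map (IsLocalRing.residue (vv v).valuationSubring)) := by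
    have h4 : (pol cB).map (IsLocalRing.residue (vv v).valuationSubring) =
        (pol fun i : Fin (d + 1) => Ideal.Quotient.mk v.asIdeal (y i.succ)).map θ := by
      rw [pol_map, pol_map]
      simp only [hres]
    rw [h4]
    exact (MulEquiv.irreducible_iff (Polynomial.mapEquiv
      (RingEquiv.ofBijective θ ⟨hθinj, hθ⟩)).toMulEquiv).2 hirr.2
  have hBlc : IsUnit (pol cB).leadingCoeff := by
    rw [pol_leadingCoeff _ hlast0]
    exact hlast
  have hBdeg : (pol cB).natDegree = d := pol_natDegree _ hlast0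
  have hBdeg' : ((pol cB).map (IsLocalRing.residue (vv v).valuationSubring)).natDegree = d := by
    rw [natDegree_map_of_leadingCoeff_ne_zero _ (hBlc.map _).ne_zero, hBdeg]
  have hBsep : ((pol cB).map (IsLocalRing.residue (vv v).valuationSubring)).Separable :=
    PerfectField.separable_of_irreducible hB
  have hcard : Nat.card (IsLocalRing.ResidueField (vv v).valuationSubring) = p := by
    rw [card_residue, hvp]
  have hcop : ∀ N : ℕ, N ∣ d → ∀ n : ℕ, ¬ N ∣ n → IsCoprime (X ^ (p ^ n) - X)
      ((pol cB).map (IsLocalRing.residue (vv v).valuationSubring)) := fun N hN n hn =>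
    coprime_irr p N hcard _ hB (by rw [hBdeg']; exact hN) n hn
  -- the constant family
  set f : k[X] := pol fun i : Fin (d + 1) => algebraMap R k (c i.succ) with hf
  have hfdeg : f.natDegree = d := pol_natDegree _ hck
  have hf0 : f ≠ 0 := by
    intro h0
    rw [h0, natDegree_zero] at hfdeg
    omega
  set fR : R[X] := pol fun i : Fin (d + 1) => c i.succ with hfR
  have hfRf : fR.map (algebraMap R k) = f := by rw [hfR, pol_map]
  have hF' : (fR.map (C : R →+* R[X])).map (mapRingHom (algebraMap R k)) =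
      (f.map (C : k →+* k[X])).map (mapRingHom (algebraMap k k)) := by
    have h1 : (mapRingHom (algebraMap R k)).comp (C : R →+* R[X]) =
        ((mapRingHom (algebraMap k k)).comp (C : k →+* k[X])).comp (algebraMap R k) := by
      ext r
      simp
    rw [Polynomial.map_map, Polynomial.map_map, h1, ← Polynomial.map_map, hfRf]
  have hg' : (X : k[X]).map (algebraMap k k) = (X - C (algebraMap R k 0)) ^ 1 *
      (1 : R[X]).map (algebraMap R k) := by
    simp
  have hθ' : vv v (ψ (algebraMap R k ((1 : R[X]).eval 0))) = 1 := by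
    rw [eval_one, map_one, map_one, map_one]
  have hFdeg : (f.map (C : k →+* k[X])).natDegree = d := by
    rw [natDegree_map_eq_of_injective C_injective, hfdeg]
  have hFt : ∀ t : k, (f.map (C : k →+* k[X])).map (evalRingHom t) = f := by
    intro t
    have h1 : (evalRingHom t).comp (C : k →+* k[X]) = RingHom.id k := by
      ext r
      simp
    rw [Polynomial.map_map, h1, Polynomial.map_id]
  have hfRt : (fR.map (C : R →+* R[X])).map (evalRingHom 0) = fR := by
    have h1 : (evalRingHom 0).comp (C : R →+* R[X]) = RingHom.id R := by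
      ext r
      simp
    rw [Polynomial.map_map, h1, Polynomial.map_id]
  have hgB : (pol cB).map (algebraMap (vv v).valuationSubring (v.adicCompletion L)) =
      ((fR.map (C : R →+* R[X])).map (evalRingHom 0)).map (ψ.comp (algebraMap R k)) := by
    rw [hfRt, hfR, pol_map, pol_map]
    rfl
  have hab : vv v (ψ (algebraMap R k (c 0 - 0 * 1))) = exp (-1) := by
    rw [zero_mul, sub_zero]
    exact ha
  have hb1 : algebraMap R k 1 = algebraMap k k 1 := by rw [map_one, map_one]
  have hVb : vv v (ψ (algebraMap R k 1)) = 1 := by rw [map_one, map_one, map_one]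
  constructor
  · intro ℓ hℓ hℓd K' _ _ _ hK'
    obtain ⟨-, h2⟩ := loc_ell hFUN ℓ p hℓ hp (L' := k) hinj (vv v) ψ (f.map C) X (fR.map C) 1 1 0
      hF' hg' hθ' hψ1 (pol cB) hgB hBlc (by rw [hBdeg, hFdeg]) hBsep hcard (hcop ℓ hℓd)
      (by rw [hFdeg]; exact h3) (algebraMap R k (c 0)) 1 (c 0) 1 rfl hb1 hVb hab
    have h4 := h2 (by
      have h5 : (ℓ : v.adicCompletion L) =
          algebraMap L (v.adicCompletion L) (algebraMap (𝓞 L) L ℓ) := by
        rw [map_natCast, map_natCast]
      rw [h5, vv_algebraMap]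
      refine (HeightOneSpectrum.valuation_eq_one_iff_notMem v).2 fun h0 => hdv ?_
      obtain ⟨n, hn⟩ := hℓd
      rw [hn, Nat.cast_mul]
      exact Ideal.mul_mem_right _ _ h0) (by rw [hFdeg]; exact hℓd)
      (fun h5 => hℓ.one_lt.ne' (Nat.dvd_one.1 h5)) K' hK'
    rwa [hFt, eval_X, div_one] at h4
  · intro D hD0 hDd K' _ _ _ hK'
    obtain ⟨-, h2⟩ := loc_all p hp (L' := k) hinj (vv v) ψ (I := Unit) (fun _ => f.map C)
      (fun _ => (Polynomial.map_ne_zero_iff C_injective).2 hf0) X (fun _ => fR.map C) 1 1 0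
      (fun _ => hF') hg' hθ' hψ1 (pol cB) (by
        rw [Finset.univ_unique, Finset.prod_singleton]
        exact hgB) hBlc (by
        rw [Finset.univ_unique, Finset.prod_singleton, hBdeg, hFdeg]) hBsep hcard D hD0
      (hcop _ hDd) (algebraMap R k (c 0)) 1 (c 0) 1 rfl hb1 hVb hab
    have h4 := h2 K' (by
      rw [Nat.cast_one, one_mul]
      exact hK')
    simp only [hFt, eval_X, div_one] at h4
    exact h4

end Pool.Agent.V11235.SJ
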