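import Pool.Agent.V11235.SF.Prim
import Pool.Agent.W723.SecC.D1a

/-! Many primes of prime norm. -/

set_option autoImplicit false

namespace Pool.Agent.V11235.SJ

open IsDedekindDomain NumberField Polynomial

theorem supply_prime (K : Type) [Field K] [NumberField K] (D : 𝓞 K) (hD : D ≠ 0) (δ : ℝ)
    (hδ : 0 < δ) (hδ1 : δ ≤ 1) (ε : ℝ) (hε : 0 < ε) :
    ∃ T : Finset (HeightOneSpectrum (𝓞 K)),
      (∀ v ∈ T, D ∉ v.asIdeal ∧ (Ideal.absNorm v.asIdeal).Prime) ∧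
      ∏ v ∈ T, (1 - δ * (1 / (Ideal.absNorm v.asIdeal : ℝ) -
        1 / (Ideal.absNorm v.asIdeal : ℝ) ^ 2)) < ε := by
  classical
  obtain ⟨S, hSp, ⟨η, C, hη, hSd⟩, hSv⟩ := Pool.Agent.V11235.SF.prim_ell_dense K 1 (1 : (𝓞 K)[X]) D hD
    (by rw [Polynomial.map_one]; exact separable_one)
    ⟨1, fun n hn => absurd (one_dvd n) hn⟩
  choose v hv using hSv
  obtain ⟨N, hN⟩ := Pool.Agent.W723.SecC.diverge S η C hη hSd (2 / δ * (1 - Real.log ε))
  set A := (Finset.range N).filter (· ∈ S) with hA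
  have hAS : ∀ p : A, p.1 ∈ S := fun p => (Finset.mem_filter.1 p.2).2
  let w : A → HeightOneSpectrum (𝓞 K) := fun p => v p.1 (hAS p)
  have hwn : ∀ p : A, Ideal.absNorm (w p).asIdeal = p.1 := fun p => (hv p.1 (hAS p)).2
  have hwinj : Function.Injective w := by
    intro p q hpq
    apply Subtype.ext
    rw [← hwn p, ← hwn q, hpq]
  refine ⟨Finset.univ.image w, ?_, ?_⟩
  · intro u hu
    obtain ⟨p, -, rfl⟩ := Finset.mem_image.1 hu
    refine ⟨(hv p.1 (hAS p)).1.1, ?_⟩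
    rw [hwn p]
    exact hSp _ (hAS p)
  · rw [Finset.prod_image fun p _ q _ h => hwinj h]
    have h1 : ∀ p : A, (1 - δ * (1 / (Ideal.absNorm (w p).asIdeal : ℝ) -
        1 / (Ideal.absNorm (w p).asIdeal : ℝ) ^ 2)) ≤
        Real.exp (-(δ / 2 * (1 / ((p.1 : ℝ) + 1)))) := by
      intro p
      rw [hwn p]
      have hpp := hSp _ (hAS p)
      have hp2 : (2 : ℝ) ≤ (p.1 : ℕ) := by exact_mod_cast hpp.two_le
      have h2 := Real.add_one_le_exp (-(δ / 2 * (1 / ((p.1 : ℝ) + 1))))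
      have h3 : 1 / 2 * (1 / ((p.1 : ℝ) + 1)) ≤ 1 / ((p.1 : ℕ) : ℝ) - 1 / ((p.1 : ℕ) : ℝ) ^ 2 := by
        have h4 : 1 / ((p.1 : ℕ) : ℝ) - 1 / ((p.1 : ℕ) : ℝ) ^ 2 =
            (((p.1 : ℕ) : ℝ) - 1) / ((p.1 : ℕ) : ℝ) ^ 2 := by
          field_simp
        rw [h4, div_mul_div_comm, div_le_div_iff₀ (by positivity) (by positivity)]
        nlinarith
      have h4 := mul_le_mul_of_nonneg_left h3 hδ.le
      linarith
    have h0 : ∀ p ∈ (Finset.univ : Finset A), 0 ≤ (1 - δ * (1 / (Ideal.absNorm (w p).asIdeal : ℝ) -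
        1 / (Ideal.absNorm (w p).asIdeal : ℝ) ^ 2)) := by
      intro p _
      rw [hwn p]
      have hpp := hSp _ (hAS p)
      have hp2 : (2 : ℝ) ≤ (p.1 : ℕ) := by exact_mod_cast hpp.two_le
      have h5 : 1 / ((p.1 : ℕ) : ℝ) ≤ 1 := by
        rw [div_le_one (by linarith)]
        linarith
      have h6 : 0 ≤ 1 / ((p.1 : ℕ) : ℝ) ^ 2 := by positivity
      have h7 : 1 / ((p.1 : ℕ) : ℝ) - 1 / ((p.1 : ℕ) : ℝ) ^ 2 ≤ 1 := by linarith
      nlinarith
    refine lt_of_le_of_lt (Finset.prod_le_prod h0 fun p _ => h1 p) ?_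
    rw [← Real.exp_sum]
    have h2 : ∑ p : A, -(δ / 2 * (1 / ((p.1 : ℝ) + 1))) =
        -(δ / 2 * ∑ n ∈ Finset.range N, Set.indicator S (fun _ => (1 : ℝ)) n *
          (1 / ((n : ℝ) + 1))) := by
      rw [Finset.sum_neg_distrib, ← Finset.mul_sum]
      congr 2
      rw [Finset.sum_coe_sort A (fun n : ℕ => 1 / ((n : ℝ) + 1)), hA, Finset.sum_filter]
      refine Finset.sum_congr rfl fun n _ => ?_
      by_cases h : n ∈ S
      · rw [if_pos h, Set.indicator_of_mem h, one_mul]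
      · rw [if_neg h, Set.indicator_of_notMem h, zero_mul]
    rw [h2]
    have h3 : δ / 2 * (2 / δ * (1 - Real.log ε)) = 1 - Real.log ε := by
      field_simp
    have h4 := mul_le_mul_of_nonneg_left hN (show 0 ≤ δ / 2 by positivity)
    rw [h3] at h4
    calc Real.exp (-(δ / 2 * ∑ n ∈ Finset.range N, Set.indicator S (fun _ => (1 : ℝ)) n *
          (1 / ((n : ℝ) + 1)))) ≤ Real.exp (Real.log ε - 1) := by
          rw [Real.exp_le_exp]
          linarith
      _ < Real.exp (Real.log ε) := by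
          rw [Real.exp_lt_exp]
          linarith
      _ = ε := Real.exp_log hε

end Pool.Agent.V11235.SJ
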